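import Pool.Agent.helper84.NR.SpecW

/-!
# CNTW: the numbers of edges and vertices of U (project NRW); copy of helper63/NR/CNT.lean
-/

set_option autoImplicit false

namespace Pool.Agent.helper84.NR

open scoped Classical
open Finset

theorem CNTW : CNTW_stmt := by
  have hIDX := h_IDX
  have hEDG := h_EDG
  have hDEG := h_DEG
  have hWW0 := h_WW0
  intro V F _ _ M x y J hT
  have hface : ∀ B ∈ J, CNT_face M x y B := fun B hB => CNT_mkface hIDX hWW0 hT.ne (hT.jy B hB)
  -- edges
  have hU : univ.filter (fun e => inU M x y J e) = univ.filter (fun e : Sym2 V => cx M x e) ∪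
      J.biUnion (fun B => ((CNT_R M x y B).filter (fun k => ¬ cx M x (CNT_ed M y B k))).image
        (CNT_ed M y B)) := by
    ext e
    rw [mem_union, mem_filter, mem_filter, mem_biUnion]
    constructor
    · rintro ⟨-, h | ⟨B, hB, k, hk, rfl⟩⟩
      · exact Or.inl ⟨mem_univ _, h⟩
      · by_cases hc : cx M x (CNT_ed M y B k)
        · exact Or.inl ⟨mem_univ _, hc⟩
        · refine Or.inr ⟨B, hB, ?_⟩
          rw [mem_image]
          exact ⟨k, mem_filter.2 ⟨CNT_memR.2 hk, hc⟩, rfl⟩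
    · rintro (⟨-, h⟩ | ⟨B, hB, h⟩)
      · exact ⟨mem_univ _, Or.inl h⟩
      · obtain ⟨k, hk, rfl⟩ := mem_image.1 h
        exact ⟨mem_univ _, Or.inr ⟨B, hB, k, CNT_memR.1 (mem_filter.1 hk).1, rfl⟩⟩
  have hUd : Disjoint (univ.filter (fun e : Sym2 V => cx M x e))
      (J.biUnion (fun B => ((CNT_R M x y B).filter (fun k => ¬ cx M x (CNT_ed M y B k))).image
        (CNT_ed M y B))) := by
    rw [Finset.disjoint_left]
    intro e he h
    obtain ⟨B, hB, h⟩ := mem_biUnion.1 h
    obtain ⟨k, hk, rfl⟩ := mem_image.1 h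
    exact (mem_filter.1 hk).2 (mem_filter.1 he).2
  have hUp : ∀ B ∈ J, ∀ B' ∈ J, B ≠ B' →
      Disjoint (((CNT_R M x y B).filter (fun k => ¬ cx M x (CNT_ed M y B k))).image (CNT_ed M y B))
        (((CNT_R M x y B').filter (fun k => ¬ cx M x (CNT_ed M y B' k))).image (CNT_ed M y B')) := by
    intro B hB B' hB' hne
    rw [Finset.disjoint_left]
    intro e he he'
    obtain ⟨k, hk, rfl⟩ := mem_image.1 he
    obtain ⟨l, hl, hkl⟩ := mem_image.1 he'
    have hf := hface B hB
    have hf' := hface B' hB'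
    have h1 := CNT_inb (CNT_memR.1 (mem_filter.1 hk).1)
    have h2 : OnE M.toCyc B' (CNT_ed M y B k) := hkl ▸ hf'.one l
    obtain ⟨h3, h4, h5⟩ := (hEDG V F M).1 B' _ _ h2
    obtain ⟨-, -, h6⟩ := M.poly B B' hne _ _ h5 (hf.onv k) (hf.onv (k + 1)) h3 h4
    have hlen := M.three B
    rcases h6 y hf.yB hf'.yB with h7 | h7
    · have := hf.inj 0 k (by omega) (by omega) (hf.w0.trans h7)
      omega
    · have := hf.inj 0 (k + 1) (by omega) (by omega) (hf.w0.trans h7)
      omega
  have hUc : (univ.filter (fun e => inU M x y J e)).card =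
      (univ.filter (fun e : Sym2 V => cx M x e)).card +
        ∑ B ∈ J, ((CNT_R M x y B).filter (fun k => ¬ cx M x (CNT_ed M y B k))).card := by
    rw [hU, Finset.card_union_of_disjoint hUd, Finset.card_biUnion hUp]
    congr 1
    refine Finset.sum_congr rfl fun B hB => ?_
    refine Finset.card_image_of_injOn ?_
    intro k hk l hl h
    rw [mem_coe, mem_filter, CNT_memR] at hk hl
    exact CNT_edinj (hface B hB) hk.1 hl.1 h
  -- vertices
  have hW : univ.filter (fun v => inW M x y J v) =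
      univ.filter (fun v => v ≠ x ∧ ∃ A, OnV M.toCyc A x ∧ OnV M.toCyc A v) ∪
      J.biUnion (fun B => ((CNT_R M x y B).filter (fun k => ¬ sh M x y B k)).image
        (ww M y B)) := by
    ext v
    rw [mem_union, mem_filter, mem_filter, mem_biUnion]
    constructor
    · rintro ⟨-, h | ⟨B, hB, k, hk, rfl⟩⟩
      · exact Or.inl ⟨mem_univ _, h⟩
      · have hf := hface B hB
        by_cases hc : sh M x y B k
        · refine Or.inl ⟨mem_univ _, ?_, hc.2.2⟩
          intro hx
          exact hf.xB (hx ▸ hf.onv k)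
        · refine Or.inr ⟨B, hB, ?_⟩
          rw [mem_image]
          exact ⟨k, mem_filter.2 ⟨CNT_memR.2 hk, hc⟩, rfl⟩
    · rintro (⟨-, h⟩ | ⟨B, hB, h⟩)
      · exact ⟨mem_univ _, Or.inl h⟩
      · obtain ⟨k, hk, rfl⟩ := mem_image.1 h
        exact ⟨mem_univ _, Or.inr ⟨B, hB, k, CNT_memR.1 (mem_filter.1 hk).1, rfl⟩⟩
  have hWd : Disjoint (univ.filter (fun v => v ≠ x ∧ ∃ A, OnV M.toCyc A x ∧ OnV M.toCyc A v))
      (J.biUnion (fun B => ((CNT_R M x y B).filter (fun k => ¬ sh M x y B k)).image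
        (ww M y B))) := by
    rw [Finset.disjoint_left]
    intro v hv h
    obtain ⟨B, hB, h⟩ := mem_biUnion.1 h
    obtain ⟨k, hk, rfl⟩ := mem_image.1 h
    have h1 := CNT_inb (CNT_memR.1 (mem_filter.1 hk).1)
    exact (mem_filter.1 hk).2 ⟨h1.1, by omega, (mem_filter.1 hv).2.2⟩
  have hWp : ∀ B ∈ J, ∀ B' ∈ J, B ≠ B' →
      Disjoint (((CNT_R M x y B).filter (fun k => ¬ sh M x y B k)).image (ww M y B))
        (((CNT_R M x y B').filter (fun k => ¬ sh M x y B' k)).image (ww M y B')) := by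
    intro B hB B' hB' hne
    rw [Finset.disjoint_left]
    intro v hv hv'
    obtain ⟨k, hk, rfl⟩ := mem_image.1 hv
    obtain ⟨l, hl, hkl⟩ := mem_image.1 hv'
    have hf := hface B hB
    have hf' := hface B' hB'
    obtain ⟨hk1, hk2⟩ := mem_filter.1 hk
    obtain ⟨⟨a, ha, hsa⟩, b, hb, hsb⟩ := CNT_memR.1 hk1
    have hak : a ≠ k := by
      rintro rfl
      exact hk2 hsa
    have h1 := hsa.1
    have h2 := hsb.2.1
    have hv2 : OnV M.toCyc B' (ww M y B k) := hkl ▸ hf'.onv l
    have hyk : ww M y B 0 ≠ ww M y B k := by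
      intro h3
      have := hf.inj 0 k (by omega) (by omega) h3
      omega
    have hy' : OnV M.toCyc B' (ww M y B 0) := by
      rw [hf.w0]
      exact hf'.yB
    obtain ⟨h4, -, -⟩ := M.poly B B' hne _ _ hyk (hf.onv 0) (hf.onv k) hy' hv2
    rcases hf.chord 0 k (by omega) (by omega) h4 with h5 | ⟨-, h5⟩
    · omega
    · omega
  have hWc : (univ.filter (fun v => inW M x y J v)).card =
      (univ.filter (fun v => v ≠ x ∧ ∃ A, OnV M.toCyc A x ∧ OnV M.toCyc A v)).card +
        ∑ B ∈ J, ((CNT_R M x y B).filter (fun k => ¬ sh M x y B k)).card := by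
    rw [hW, Finset.card_union_of_disjoint hWd, Finset.card_biUnion hWp]
    congr 1
    refine Finset.sum_congr rfl fun B hB => ?_
    refine Finset.card_image_of_injOn ?_
    intro k hk l hl h
    rw [mem_coe, mem_filter, CNT_memR] at hk hl
    have h1 := CNT_inb hk.1
    have h2 := CNT_inb hl.1
    exact (hface B hB).inj k l (by omega) (by omega) h
  rw [hUc, hWc, CNT_CD hEDG hDEG M x]
  push_cast
  rw [add_sub_add_left_eq_sub, ← Finset.sum_sub_distrib]
  exact Finset.sum_congr rfl fun B hB => CNT_one hEDG (hface B hB) (hT.jn B hB)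

end Pool.Agent.helper84.NR
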